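import Pool.Agent.Q126.TD.Sq
import Pool.Agent.Q126.TD.Pairs
import Pool.Agent.TH115.SD.Fam2

/-!
# The Tate conjecture at 2 for almost all elliptic surfaces `y² = x (x - a) (x - b)` of odd degree

Let `k` be a finitely generated field of characteristic zero, `k'` a separable closure, `K = k(t)`,
`F = k'(t)`, `N ≥ 5` odd. For general polynomials `a`, `b` of degree `N` the elliptic surface over the
projective line with the generic fibre

`E : y² = x (x - a) (x - b)`

has `3 N` fibres of type `I₂` and a fibre of type `I₀*` at infinity, and its geometric genus is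
`(N - 1) / 2`.

Theorem. Among the pairs `(a, b)` of polynomials of degree at most `N` with integer coefficients of
absolute value at most `H`, the proportion of those for which

for all constants `d ≠ 0` in `k`, the twist `y² = x (x - d a) (x - d b)` of `E` satisfies the Tate
conjecture for divisors at the prime 2 over `k` (`TateAtTwo`), and all its Tate classes are zero
(`GeneratedBy` with no generators)

tends to one as `H` tends to infinity.

So for almost all integer pairs there are no transcendental Tate classes at 2 on all the twists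
over `k`, and `E` and its twists by constants have only torsion points over `k(t)`.

The proof: by the second geometric 2-descent (`Pool.Agent.TH115.SD`) it is sufficient that `a`, `b`,
`a - b` are irreducible of degree `N`, and that no constant multiple of `b` is a square modulo `a`. By a
theorem of Cassels the field `k` can be embedded in `ℚ_p` for infinitely many primes `p`. For each of
these primes, a positive proportion (depending only on `N`) of the residue classes modulo `p` of
`(a, b)` consists of pairs for which `a` (or `b`, or `a - b`) is irreducible over `ℚ_p`, and the same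
holds for the pairs for which `a` has two simple roots `α`, `β` modulo `p` such that `b(α) b(β)` is not a
square modulo `p`: this excludes that a constant multiple of `b` is a square modulo `a`. So almost all
pairs have all these properties, each at some prime.
-/

set_option autoImplicit false

namespace Pool.Agent.Results.MP_89bcae_ag.AlmostAllFullTwoTorsion

open Polynomial Filter Topology Pool.Agent.TH115.GD Pool.Agent.Q126.TD

/-- The polynomial over `k` given by an integer polynomial. -/
noncomputable def toField (k : Type) [Field k] (f : ℤ[X]) : k[X] := f.map (Int.castRingHom k)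

/-- The set of pairs `(a, b)` for which the Tate conjecture at 2 holds for all the twists by constants
of `y² = x (x - a) (x - b)`, and all their Tate classes at 2 are zero. -/
def Good (k k' K F : Type) [Field k] [Field k'] [Algebra k k'] [Field K]
    [Algebra k[X] K] [Field F] [Algebra k'[X] F] [IsFractionRing k'[X] F] [Algebra K F] :
    Set (ℤ[X] × ℤ[X]) :=
  {x | ∀ d : k, d ≠ 0 →
    TateAtTwo (F := F) k' (crv (algebraMap k[X] K (C d * toField k x.1))
      (algebraMap k[X] K (C d * toField k x.2))) ∧
    GeneratedBy (F := F) k' (crv (algebraMap k[X] K (C d * toField k x.1))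
      (algebraMap k[X] K (C d * toField k x.2))) 0}

theorem equi_inl {n m : ℕ} : Equidistributed n (fun v : Fin (n + 1) ⊕ Fin (m + 1) → ℤ =>
    pol fun i => v (Sum.inl i)) := by
  refine ⟨fun v => natDegree_pol_le _, fun p hp _ => ?_⟩
  refine ⟨fun w i => w (Sum.inl i), ⟨Fin (m + 1) → ZMod p,
    (Equiv.sumArrowEquivProdArrow _ _ _).trans (Equiv.prodComm _ _), fun w => rfl⟩, fun v => ?_⟩
  rw [map_pol]
  rfl

theorem equi_sub {n : ℕ} : Equidistributed n (fun v : Fin (n + 1) ⊕ Fin (n + 1) → ℤ =>
    (pol fun i => v (Sum.inl i)) - pol fun i => v (Sum.inr i)) := by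
  refine ⟨fun v => (natDegree_sub_le _ _).trans (max_le (natDegree_pol_le _) (natDegree_pol_le _)),
    fun p hp _ => ?_⟩
  let e : (Fin (n + 1) → ZMod p) × (Fin (n + 1) → ZMod p) ≃
      (Fin (n + 1) → ZMod p) × (Fin (n + 1) → ZMod p) :=
    { toFun := fun x => (x.1, x.1 - x.2)
      invFun := fun x => (x.1, x.1 - x.2)
      left_inv := fun x => by simp
      right_inv := fun x => by simp }
  refine ⟨fun w i => w (Sum.inl i) - w (Sum.inr i), ⟨Fin (n + 1) → ZMod p,
    (Equiv.sumArrowEquivProdArrow _ _ _).trans e, fun w => rfl⟩, fun v => ?_⟩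
  rw [Polynomial.map_sub, map_pol, map_pol]
  unfold pol
  rw [← Finset.sum_sub_distrib]
  refine Finset.sum_congr rfl fun i _ => ?_
  rw [C_sub, sub_mul]
  rfl

theorem not_survives {k : Type} [Field k] {a b : k[X]} (hb : b ≠ 0) (hab : a - b ≠ 0)
    (h : ∀ c : k, c ≠ 0 → ¬ SqMod a (C c * b)) {d : k} (hd : d ≠ 0) :
    ¬ Survives (C d * a) (C d * b) := by
  rintro ⟨⟨z, hz⟩, -, -⟩
  have hsub : C d * a - C d * b = C d * (a - b) := by ring
  rw [hsub, leadingCoeff_mul, leadingCoeff_mul, leadingCoeff_C] at hz
  refine h (d * b.leadingCoeff * (d * (a - b).leadingCoeff) * d) ?_ ⟨z, ?_⟩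
  · exact mul_ne_zero (mul_ne_zero (mul_ne_zero hd (leadingCoeff_ne_zero.2 hb))
      (mul_ne_zero hd (leadingCoeff_ne_zero.2 hab))) hd
  · refine (dvd_mul_left a (C d)).trans ?_
    have e : C (d * b.leadingCoeff * (d * (a - b).leadingCoeff) * d) * b =
        C (d * b.leadingCoeff * (d * (a - b).leadingCoeff)) * (C d * b) := by
      rw [C_mul]; ring
    rw [e]
    exact hz

theorem good_of {k k' K F : Type} [Field k] [CharZero k] [Field k'] [Algebra k k'] [Field K]
    [Algebra k[X] K] [Field F] [Algebra k'[X] F] [IsFractionRing k'[X] F] [Algebra K F]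
    (hT : IsTower k k' K F) {N : ℕ} (hN : Odd N) {a b : k[X]} (ha : Irreducible a)
    (hb : Irreducible b) (hc : Irreducible (a - b)) (dA : a.natDegree = N) (dB : b.natDegree = N)
    (dC : (a - b).natDegree = N) (h : ∀ c : k, c ≠ 0 → ¬ SqMod a (C c * b)) {d : k} (hd : d ≠ 0) :
    TateAtTwo (F := F) k' (crv (algebraMap k[X] K (C d * a)) (algebraMap k[X] K (C d * b))) ∧
    GeneratedBy (F := F) k' (crv (algebraMap k[X] K (C d * a)) (algebraMap k[X] K (C d * b))) 0 := by
  have hu : IsUnit (C d : k[X]) := isUnit_C.2 (isUnit_iff_ne_zero.2 hd)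
  have irr : ∀ {p : k[X]}, Irreducible p → Irreducible (C d * p) := fun hp =>
    (irreducible_isUnit_mul hu).2 hp
  have hsub : C d * a - C d * b = C d * (a - b) := by ring
  have hco : IsCoprime a b := by
    rw [ha.coprime_iff_not_dvd]
    intro hdv
    apply h 1 one_ne_zero
    exact ⟨0, by
      rw [C_1, one_mul, zero_pow two_ne_zero, zero_sub, dvd_neg]
      exact hdv⟩
  have hco' : IsCoprime (C d * a) (C d * b) := (isCoprime_mul_unit_left hu a b).2 hco
  exact generic (F := F) hT two_ne_zero (irr ha) (irr hb) (by rw [hsub]; exact irr hc)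
    (irr ha).separable (irr hb).separable (by rw [hsub]; exact (irr hc).separable) hco' hN
    (by rw [natDegree_C_mul hd, dA]) (by rw [natDegree_C_mul hd, dB])
    (by rw [hsub, natDegree_C_mul hd, dC]) (not_survives hb.ne_zero hc.ne_zero h hd)

/-- **The Tate conjecture at 2 for almost all elliptic surfaces `y² = x (x - a) (x - b)` of odd
degree.** -/
theorem result (N : ℕ) (hN : 5 ≤ N) (hodd : Odd N) {k k' K F : Type} [Field k] [CharZero k]
    (hk : ∃ s : Finset k, Subfield.closure (s : Set k) = ⊤)
    [Field k'] [Algebra k k'] [Field K] [Algebra k[X] K] [Field F] [Algebra k'[X] F]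
    [IsFractionRing k'[X] F] [Algebra K F] (hT : IsTower k k' K F) :
    Tendsto (fun H : ℕ => ((pairs N N H ∩ Good k k' K F).ncard : ℝ) / (pairs N N H).ncard)
      atTop (𝓝 1) := by
  apply tendsto_pairs
  have h1 := irr_full (k := k) hk (m := N) (by omega) (equi_inl (m := N))
  have h2 := irr_full (k := k) hk (m := N) (by omega) (equi_inr (n := N))
  have h3 := irr_full (k := k) hk (m := N) (by omega) equi_sub
  have h4 := sq_full (k := k) hk (N := N) (by omega)
  refine (((h1.inter h2).inter h3).inter h4).mono ?_
  rintro v ⟨⟨⟨⟨v1, d1⟩, v2, d2⟩, v3, d3⟩, v4⟩ d hd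
  have e : ((pol fun i => v (Sum.inl i)) - pol fun i => v (Sum.inr i)).map
      (Int.castRingHom k) = toField k (pol fun i => v (Sum.inl i)) -
        toField k (pol fun i => v (Sum.inr i)) := Polynomial.map_sub _
  change Irreducible ((_ : ℤ[X]).map (Int.castRingHom k)) at v3
  change ((_ : ℤ[X]).map (Int.castRingHom k)).natDegree = N at d3
  rw [e] at v3 d3
  exact good_of hT hodd v1 v2 v3 d1 d2 d3 v4 hd

end Pool.Agent.Results.MP_89bcae_ag.AlmostAllFullTwoTorsion
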