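import Pool.Agent.Q126.TD.Comp
import Pool.Agent.Q126.TD.Pairs
import Pool.Agent.TH115.TC.TwMain

/-!
# The Tate conjecture at 2 for almost all quadratic twists of `y² = g(x) + t`

Let `g = x³ + b₂ x² + b₁ x + b₀` be a cubic polynomial with integer coefficients, `b₂² ≠ 3 b₁` (so the
derivative of `g` has two different roots), and let `k` be a finitely generated field of
characteristic zero, `k'` a separable closure, `K = k(t)`, `F = k'(t)`. For a polynomial `D` over `k`
let `X_D` be the elliptic surface over the projective line with the generic fibre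

`E_D : D(t) y² = g(x) + t`.

For general `D` it has a fibre of type `I₀*` at each root of `D`, and its geometric genus tends
to infinity with the degree of `D`; the curve `E_D` has no points of order two over `F`.

Theorem. Let `m ≥ 1`. Among the polynomials `D` of degree at most `m` with integer coefficients of
absolute value at most `H`, the proportion of those for which

for all constants `d ≠ 0` in `k` the curve `E_{d D}` satisfies the Tate conjecture for divisors at
the prime 2 over `k` (`TateAtTwo`)

tends to one as `H` tends to infinity.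

`TateAtTwo` says that all the classes in `V₂ Sel(E / F)` which are fixed by the Galois group of `k`
come from `E(K)`; as `Br(X ⊗ k') = Ш(E / F)` (Grothendieck), this is the Tate conjecture for divisors
at the prime 2 on the elliptic surface.

The proof: by `Pool.Agent.TH115.TC` it is sufficient that `D` is squarefree and `g(x) + t` has no root
modulo the irreducible factors of `D`. This holds if the polynomial `D(-g(x))` of degree `3 m` is
irreducible over `k`. By a theorem of Cassels the field `k` can be embedded in `ℚ_p` for infinitely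
many primes `p`; for each of these primes, at least the proportion `1 / (24 m)` of the polynomials `D` of
degree `m` modulo `p` is such that `D(-g(x))` is irreducible modulo `p`, and then it is irreducible
over `k`.
-/

set_option autoImplicit false

namespace Pool.Agent.Results.MP_89bcae_ag.AlmostAllQuadraticTwists

open Polynomial Filter Topology Pool.Agent.TH115.GD Pool.Agent.Q126.TD

/-- The curve `D(t) y² = x³ + b₂ x² + b₁ x + b₀ + t` over `K = k(t)`, in the form
`y² = x³ + b₂ D x² + b₁ D² x + D³ (b₀ + t)`. -/
noncomputable def twisted (K : Type) {k : Type} [Field k] [Field K] [Algebra k[X] K] (b₂ b₁ b₀ : ℤ)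
    (D : k[X]) : WeierstrassCurve K :=
  ⟨0, algebraMap k[X] K (D * C (b₂ : k)), 0, algebraMap k[X] K (D ^ 2 * C (b₁ : k)),
    algebraMap k[X] K (D ^ 3 * (C (b₀ : k) + X))⟩

/-- The set of the integer polynomials `D` such that the Tate conjecture at 2 holds for all the twists
of `E_D` by constants. -/
def Good (b₂ b₁ b₀ : ℤ) (k k' K F : Type) [Field k] [Field k'] [Algebra k k'] [Field K]
    [Algebra k[X] K] [Field F] [Algebra k'[X] F] [IsFractionRing k'[X] F] [Algebra K F] :
    Set ℤ[X] :=
  {D | ∀ d : k, d ≠ 0 → TateAtTwo (F := F) k'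
    (twisted K b₂ b₁ b₀ (C d * D.map (Int.castRingHom k)))}

/-- The vectors of the coefficients of `D(-t)`. -/
theorem equi_neg {n : ℕ} : Equidistributed n (fun v : Fin (n + 1) → ℤ => (pol v).comp (-X)) := by
  refine ⟨fun v => ?_, fun p hp _ => ?_⟩
  · refine natDegree_comp_le.trans ?_
    rw [natDegree_neg, natDegree_X, mul_one]
    exact natDegree_pol_le v
  · let e : (Fin (n + 1) → ZMod p) ≃ Unit × (Fin (n + 1) → ZMod p) :=
      { toFun := fun w => ((), fun i => (-1) ^ (i : ℕ) * w i)
        invFun := fun x => fun i => (-1) ^ (i : ℕ) * x.2 i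
        left_inv := fun w => by
          funext i
          show (-1) ^ (i : ℕ) * ((-1) ^ (i : ℕ) * w i) = w i
          rw [← mul_assoc, ← mul_pow]
          simp
        right_inv := fun x => by
          refine Prod.ext rfl ?_
          funext i
          show (-1) ^ (i : ℕ) * ((-1) ^ (i : ℕ) * x.2 i) = x.2 i
          rw [← mul_assoc, ← mul_pow]
          simp }
    refine ⟨fun w i => (-1) ^ (i : ℕ) * w i, ⟨Unit, e, fun w => rfl⟩, fun v => ?_⟩
    rw [Polynomial.map_comp, map_pol]
    rw [Polynomial.map_neg, map_X]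
    unfold pol
    refine (map_sum (compRingHom (-X)) _ _).trans ?_
    refine Finset.sum_congr rfl fun i _ => ?_
    show (C ((v i : ℤ) : ZMod p) * X ^ (i : ℕ)).comp (-X) = _
    rw [mul_comp, C_comp, pow_comp, X_comp, neg_pow, C_mul, C_pow, C_neg, C_1]
    ring

theorem good_of {k k' K F : Type} [Field k] [CharZero k] [Field k'] [Algebra k k'] [Field K]
    [Algebra k[X] K] [Field F] [Algebra k'[X] F] [IsFractionRing k'[X] F] [Algebra K F]
    (hT : IsTower k k' K F) {b₂ b₁ b₀ : ℤ} {D : k[X]}
    (h : Irreducible ((D.comp (-X)).comp (cb (b₂ : k) (b₁ : k) (b₀ : k)))) {d : k} (hd : d ≠ 0) :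
    TateAtTwo (F := F) k' (twisted K b₂ b₁ b₀ (C d * D)) := by
  set g := cb (b₂ : k) (b₁ : k) (b₀ : k) with hg
  have hg3 : g.natDegree = 3 := (cb_deg _ _ _).1
  have e0 : (D.comp (-X)).comp g = D.comp (-g) := by
    rw [comp_assoc, neg_comp, X_comp]
  rw [e0] at h
  obtain ⟨hD, hroot⟩ := not_dvd_of_comp (f := D) (g := -g)
    (by rw [natDegree_neg, hg3]; norm_num) h
  have hu : IsUnit (C d : k[X]) := isUnit_C.2 (isUnit_iff_ne_zero.2 hd)
  have hdD : Irreducible (C d * D) := (irreducible_isUnit_mul hu).2 hD
  have hder : derivative (cb (b₂ : k) (b₁ : k) (b₀ : k)) ≠ 0 := by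
    intro h0
    have h1 := Polynomial.derivative_eq_zero.1 h0
    rw [← hg, hg3] at h1
    norm_num at h1
  have := tw_tate hT (two_ne_zero (α := k)) (l := []) hder (by simp) (by simp [GoodL, crit])
    hdD.squarefree (by
      intro π hπ hπD u hdv
      have h1 : Associated π (C d * D) := (hπ.associated_of_dvd hdD hπD)
      have h2 : D ∣ g.comp u + cq [] := by
        refine dvd_trans ?_ (h1.symm.dvd.trans hdv)
        exact dvd_mul_left _ _
      apply hroot u
      have h3 : (-g).comp u - X = -(g.comp u + X) := by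
        rw [neg_comp]; ring
      rw [h3, dvd_neg]
      exact h2)
  exact this

/-- **The Tate conjecture at 2 for almost all quadratic twists of `y² = g(x) + t`.** -/
theorem result (b₂ b₁ b₀ : ℤ) (hg : b₂ ^ 2 ≠ 3 * b₁) (m : ℕ) (hm : 1 ≤ m) {k k' K F : Type}
    [Field k] [CharZero k] (hk : ∃ s : Finset k, Subfield.closure (s : Set k) = ⊤)
    [Field k'] [Algebra k k'] [Field K] [Algebra k[X] K] [Field F] [Algebra k'[X] F]
    [IsFractionRing k'[X] F] [Algebra K F] (hT : IsTower k k' K F) :
    Tendsto (fun H : ℕ => ((polys m H ∩ Good b₂ b₁ b₀ k k' K F).ncard : ℝ) /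
      (polys m H).ncard) atTop (𝓝 1) := by
  apply tendsto_polys
  have gd : (X ^ 3 + C b₂ * X ^ 2 + C b₁ * X + C b₀ : ℤ[X]).natDegree = 3 := by
    compute_degree!
  have gm : (X ^ 3 + C b₂ * X ^ 2 + C b₁ * X + C b₀ : ℤ[X]).Monic := by
    monicity!
  have c2 : (X ^ 3 + C b₂ * X ^ 2 + C b₁ * X + C b₀ : ℤ[X]).coeff 2 = b₂ := by
    simp only [coeff_add, coeff_C_mul, coeff_X_pow, coeff_X, coeff_C]
    norm_num
  have c1 : (X ^ 3 + C b₂ * X ^ 2 + C b₁ * X + C b₀ : ℤ[X]).coeff 1 = b₁ := by
    simp only [coeff_add, coeff_C_mul, coeff_X_pow, coeff_X, coeff_C]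
    norm_num
  have h1 := comp_full (k := k) hk (N := m) (by omega) equi_neg gm gd (by rw [c2, c1]; exact hg)
  refine h1.mono ?_
  rintro v ⟨v1, -⟩ d hd
  apply good_of hT _ hd
  have e1 : (X ^ 3 + C b₂ * X ^ 2 + C b₁ * X + C b₀ : ℤ[X]).map (Int.castRingHom k) =
      cb (b₂ : k) (b₁ : k) (b₀ : k) := by
    unfold cb
    simp
  rw [e1, Polynomial.map_comp, Polynomial.map_neg, map_X] at v1
  exact v1

end Pool.Agent.Results.MP_89bcae_ag.AlmostAllQuadraticTwists
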