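import Pool.Agent.Q126.TD.Full
import Pool.Agent.Q126.TD.Pairs
import Pool.Agent.TH115.ID.Gener

/-!
# The Tate conjecture at 2 for almost all elliptic surfaces with a section of order two

Let `k` be a finitely generated field of characteristic zero, `k'` a separable closure, `K = k(t)`,
`F = k'(t)`. Every elliptic curve over `K` with a rational point of order two has an equation

`E : y² = x (x² + a x + b)`

with polynomials `a`, `b`, and for general `a`, `b` of degrees at most `2 r` and `4 r` the geometric
genus of the elliptic surface over the projective line with the generic fibre `E` is `r - 1`.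

Let `n`, `m` be natural numbers with `3 ≤ m` and `2 n ≤ m` (for example `n = 2 r`, `m = 4 r`). Among
the pairs `(a, b)` of polynomials of degrees at most `n` and `m` with integer coefficients of absolute
value at most `H`, the proportion of those for which

for all constants `d ≠ 0` in `k`, the twist `y² = x (x² + d a x + d² b)` of `E` satisfies the Tate
conjecture for divisors at the prime 2 over `k` (`TateAtTwo`)

tends to one as `H` tends to infinity.

`TateAtTwo` says that all the classes in `V₂ Sel(E / F)` which are fixed by the Galois group of `k`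
come from `E(K)`; as `Br(X ⊗ k') = Ш(E / F)` (Grothendieck), this is the Tate conjecture for divisors
at the prime 2 on the elliptic surface `X` over `k`.

The proof: the descent by the isogenies of degree two (`Pool.Agent.TH115.ID`) gives the Tate conjecture
if `b` and `a² - 4 b` are irreducible over `k` and are not constants times norms from quadratic
extensions of `k`. By a theorem of Cassels the field `k` can be embedded in `ℚ_p` for infinitely many
primes `p`. For each of these primes, a positive proportion (depending only on `m`) of the residue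
classes modulo `p` of `(a, b)` consists of pairs for which `b` (or `a² - 4 b`) is irreducible over
`ℚ_p`, and the same holds for the pairs for which it is the product of a linear factor and of an
irreducible factor of degree `m - 1 ≥ 2` (Hensel), so that it is not a norm. So almost all pairs have
all four properties, each at some prime.
-/

set_option autoImplicit false

namespace Pool.Agent.Results.MP_89bcae_ag.AlmostAllWithTwoTorsion

open Polynomial Filter Topology Pool.Agent.TH115.GD Pool.Agent.Q126.TD

/-- The polynomial over `k` given by an integer polynomial. -/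
noncomputable def toField (k : Type) [Field k] (f : ℤ[X]) : k[X] := f.map (Int.castRingHom k)

/-- The set of pairs `(a, b)` for which the Tate conjecture at 2 holds for all the twists by constants
of `y² = x (x² + a x + b)`. -/
def Good (k k' K F : Type) [Field k] [Field k'] [Algebra k k'] [Field K]
    [Algebra k[X] K] [Field F] [Algebra k'[X] F] [IsFractionRing k'[X] F] [Algebra K F] :
    Set (ℤ[X] × ℤ[X]) :=
  {x | ∀ d : k, d ≠ 0 → TateAtTwo (F := F) k'
    (crvT (algebraMap k[X] K (C d * toField k x.1)) (algebraMap k[X] K (C (d ^ 2) * toField k x.2)))}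

theorem notNorm_C_mul {k : Type} [Field k] {c : k} (hc : c ≠ 0) {f : k[X]} (h : NotNorm f) :
    NotNorm (C c * f) := by
  intro u D U V e
  refine h (c⁻¹ * u) D U V ?_
  rw [C_mul, mul_assoc, ← e, ← mul_assoc, ← C_mul, inv_mul_cancel₀ hc, C_1, one_mul]

theorem good_of {k k' K F : Type} [Field k] [CharZero k] [Field k'] [Algebra k k'] [Field K]
    [Algebra k[X] K] [Field F] [Algebra k'[X] F] [IsFractionRing k'[X] F] [Algebra K F]
    (hT : IsTower k k' K F) {a b : k[X]} (hb : Irreducible b) (hΔ : Irreducible (a ^ 2 - 4 * b))
    (nb : NotNorm b) (nΔ : NotNorm (a ^ 2 - 4 * b)) {d : k} (hd : d ≠ 0) :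
    TateAtTwo (F := F) k'
      (crvT (algebraMap k[X] K (C d * a)) (algebraMap k[X] K (C (d ^ 2) * b))) := by
  have hd2 : d ^ 2 ≠ 0 := pow_ne_zero 2 hd
  have e : (C d * a) ^ 2 - 4 * (C (d ^ 2) * b) = C (d ^ 2) * (a ^ 2 - 4 * b) := by
    rw [C_pow]; ring
  refine genericT hT two_ne_zero (π := b) (ρ := a ^ 2 - 4 * b) (u := d ^ 2) (v := d ^ 2)
    (m := 0) (n := 0) hd2 hd2 hb hΔ hb.separable hΔ.separable ?_ ?_ (notNorm_C_mul hd2 nb) ?_
  · rw [mul_zero, zero_add, pow_one]
  · rw [mul_zero, zero_add, pow_one, e]
  · rw [e]
    exact notNorm_C_mul hd2 nΔ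

/-- **The Tate conjecture at 2 for almost all elliptic surfaces with a section of order two.** -/
theorem result (n m : ℕ) (hm : 3 ≤ m) (hnm : 2 * n ≤ m) {k k' K F : Type} [Field k] [CharZero k]
    (hk : ∃ s : Finset k, Subfield.closure (s : Set k) = ⊤)
    [Field k'] [Algebra k k'] [Field K] [Algebra k[X] K] [Field F] [Algebra k'[X] F]
    [IsFractionRing k'[X] F] [Algebra K F] (hT : IsTower k k' K F) :
    Tendsto (fun H : ℕ => ((pairs n m H ∩ Good k k' K F).ncard : ℝ) / (pairs n m H).ncard)
      atTop (𝓝 1) := by
  obtain ⟨m', rfl⟩ : ∃ m', m = m' + 1 := ⟨m - 1, by omega⟩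
  have hm' : 2 ≤ m' := by omega
  apply tendsto_pairs
  have h1 := irr_full (k := k) hk (m := m' + 1) (by omega) (equi_inr (n := n))
  have h2 := notNorm_full (k := k) hk hm' (equi_inr (n := n))
  have h3 := irr_full (k := k) hk (m := m' + 1) (by omega) (equi_disc hnm)
  have h4 := notNorm_full (k := k) hk hm' (equi_disc hnm)
  refine (((h1.inter h2).inter h3).inter h4).mono ?_
  rintro v ⟨⟨⟨⟨v1, -⟩, v2⟩, v3, -⟩, v4⟩ d hd
  have e : ((pol fun i => v (Sum.inl i)) ^ 2 - 4 * pol fun i => v (Sum.inr i)).map
      (Int.castRingHom k) = (toField k (pol fun i => v (Sum.inl i))) ^ 2 -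
        4 * toField k (pol fun i => v (Sum.inr i)) := by
    rw [Polynomial.map_sub, Polynomial.map_mul, Polynomial.map_pow, Polynomial.map_ofNat]
    rfl
  change Irreducible ((_ : ℤ[X]).map (Int.castRingHom k)) at v3
  change NotNorm ((_ : ℤ[X]).map (Int.castRingHom k)) at v4
  rw [e] at v3 v4
  exact good_of hT v1 v3 v2 v4 hd

end Pool.Agent.Results.MP_89bcae_ag.AlmostAllWithTwoTorsion
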