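import Mathlib
import Pool.Agent.TH115.GD.Defs
import Pool.Agent.TH115.GD.Defs2
import Pool.Agent.Q59.PB.Tow

/-!
# The Tate conjecture at 2 for pull-backs of elliptic surfaces of maximal rank

Let `k` be a field of characteristic different from 2 (for example finitely generated over its prime
field), `k'` a separable closure, `K = k(t)`, `F = k'(t)`. Let `a ≠ b` be coprime polynomials over `k`,
not zero, such that the maximum of their degrees is odd, or two of `a`, `b`, `a - b` have an irreducible
factor of odd degree and odd multiplicity, and

`E : y ^ 2 = x (x - a) (x - b)`.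

The curve `E` is called here of maximal rank `d` if

* there are at most `2 ^ (d + 2)` triples `(A, B, D)` of monic squarefree divisors of `a`, `b`, `a - b`
  over `k` (with a condition on the parities of the degrees if `a`, `b` have even maximal degree), and
* there are `d` points of `E(K)` which are independent modulo `2 E(K)` and the points of order two.

(So the rank of `E(K)` is the largest which the geometric 2-descent allows. Examples are the rational
elliptic surfaces with full level two structure whose bad fibres and sections are all defined over `k`: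
`d = 1` if `a`, `b`, `a - b` are linear, `d = 2` if they are quadratic with six zeros in `k`.)

Theorem. Let `E` be of maximal rank `d`, and let `g` be any polynomial over `k` of odd degree such that
for every irreducible divisor `π` of `a b (a - b)` the polynomial `π(g)` is irreducible and separable.
Then the pull-back of the surface by `g`,

`E_g : y ^ 2 = x (x - a(g(t))) (x - b(g(t)))`,

is again of maximal rank `d`, and

* the Tate conjecture for divisors at the prime 2 holds for `E_g`: every class in `V₂ Sel(E_g / F)`
  which is fixed by the Galois group of `k` comes from `E_g(K)` (for the surface `X` with generic fibre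
  `E_g` one has `Br(X ⊗ k') = Ш(E_g / F)` up to `p`-torsion, Grothendieck);
* `E_g(K)` has `d` linearly independent points, and `V₂ Sel(E_g / F)^{G_k}` is generated by `d`
  elements: there are exactly `d` independent Tate classes besides those of the fibres and of the
  zero section, however large the geometric genus of `X` (which grows with the degree of `g`) is.

If `k` is the field of rational numbers and all the zeros of `a b (a - b)` are integers (this can be
achieved by a scaling if they are rational), then there is an integer `c` such that all the polynomials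
`g = t ^ n + c`, `n` odd, satisfy the condition: so all this holds for the whole sequence of the surfaces

`y ^ 2 = x (x - a(t ^ n + c)) (x - b(t ^ n + c))`, `n = 1, 3, 5, ...`.
-/

set_option autoImplicit false
set_option linter.all false

namespace Pool.Agent.Results.MP_89bcae_ag.PullbacksOfMaximalRank

open Polynomial Pool.Agent.TH115.GD
open scoped Classical

/-- The curve `y ^ 2 = x (x - a) (x - b)` over `K = k(t)` is of maximal rank `d`: there are at most
`2 ^ (d + 2)` triples of divisors of `a`, `b`, `a - b`, and there are `d` points which are independent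
modulo the points of order two and the multiples of two. -/
def MaximalRank (k K : Type) [Field k] [Field K] [Algebra k[X] K] (a b : k[X]) (d : ℕ) : Prop :=
  (Triples a b).encard ≤ 2 ^ (d + 2) ∧
    ∃ P : Fin d → Pt (crv (algebraMap k[X] K a) (algebraMap k[X] K b)) K,
      ∀ S : Finset (Fin d), S.Nonempty →
        ∀ T Q : Pt (crv (algebraMap k[X] K a) (algebraMap k[X] K b)) K, T + T = 0 →
          ∑ i ∈ S, P i ≠ T + (Q + Q)

/-- The irreducible divisors of `p` stay irreducible (and separable) after the substitution of `g`. -/
def StaysIrreducible {k : Type} [Field k] (g p : k[X]) : Prop :=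
  ∀ π : k[X], Irreducible π → π ∣ p → Irreducible (π.comp g) ∧ (π.comp g).Separable

/-- The conditions on the polynomials `a`, `b`. -/
def Suitable {k : Type} [Field k] (a b : k[X]) : Prop :=
  a ≠ 0 ∧ b ≠ 0 ∧ a ≠ b ∧ IsCoprime a b ∧
    (Odd (max a.natDegree b.natDegree) ∨ TwoOddFactors a b)

/-- The curve `y ^ 2 = x (x - a) (x - b)` over `K` satisfies the Tate conjecture at 2, it has `d`
linearly independent points, and the Galois-invariant classes of `V₂ Sel` are generated by `d`
elements. -/
def TateOfRank {k K F : Type} (k' : Type) [Field k] [Field K] [Algebra k[X] K] [Field k'] [Field F]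
    [Algebra k'[X] F] [IsFractionRing k'[X] F] [Algebra K F] (a b : k[X]) (d : ℕ) : Prop :=
  TateAtTwo (F := F) k' (crv (algebraMap k[X] K a) (algebraMap k[X] K b)) ∧
  (∃ P : Fin d → Pt (crv (algebraMap k[X] K a) (algebraMap k[X] K b)) K,
    LinearIndependent ℤ P) ∧
  GeneratedBy (F := F) k' (crv (algebraMap k[X] K a) (algebraMap k[X] K b)) d

theorem result :
    (∀ (k k' K F : Type) [Field k] [Field k'] [Algebra k k'] [Field K] [Algebra k[X] K]
      [Field F] [Algebra k'[X] F] [IsFractionRing k'[X] F] [Algebra K F], IsTower k k' K F →
      (2 : k) ≠ 0 → ∀ a b : k[X], Suitable a b → ∀ d : ℕ, MaximalRank k K a b d →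
      ∀ g : k[X], Odd g.natDegree → StaysIrreducible g (a * b * (a - b)) →
        MaximalRank k K (a.comp g) (b.comp g) d ∧
        TateOfRank (K := K) (F := F) k' (a.comp g) (b.comp g) d) ∧
    (∀ a b : ℚ[X], a ≠ 0 → b ≠ 0 → a ≠ b →
      (∀ π : ℚ[X], Irreducible π → π ∣ a * b * (a - b) → ∃ s : ℤ, π ∣ X - C (s : ℚ)) →
      ∃ c : ℤ, ∀ n : ℕ, Odd n → StaysIrreducible (X ^ n + C (c : ℚ)) (a * b * (a - b))) := by
  refine ⟨?_, ?_⟩
  · intro k k' K F _ _ _ _ _ _ _ _ _ hT h2 a b ⟨ha, hb, hab, hco, hodd⟩ d H g hg hK
    haveI := hT.fracK
    obtain ⟨e1, e2, e3, e4, e5, e6⟩ := Pool.Agent.Q59.PB.hyps_comp ha hb hab hco hodd hg hK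
    have H' := Pool.Agent.Q59.PB.maxRk_comp hT h2 ha hb hab hco hodd hg hK H
    obtain ⟨r1, r2, r3, -⟩ := Pool.Agent.Q59.PB.maxRk_all hT h2 e1 e2 e3 e4 e5 e6 H'
    exact ⟨H', r1, r3, r2⟩
  · intro a b ha hb hab hlin
    obtain ⟨c, hc⟩ := Pool.Agent.Q59.PB.exists_keeps_rat
      (mul_ne_zero (mul_ne_zero ha hb) (sub_ne_zero.2 hab)) hlin
    exact ⟨c, fun n hn => hc n hn⟩

end Pool.Agent.Results.MP_89bcae_ag.PullbacksOfMaximalRank
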